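import Pool.Agent.helper16.GK.Spec

/-!
# Rows DEN and NNO of project GK (MP_2e0e07_nt)
-/

set_option autoImplicit false

namespace Pool.Agent.GK

open NumberField IsDedekindDomain

/-- the norm of a prime ideal over `p` is divisible by `p` -/
theorem DEN_dvd {L : Type} [Field L] [NumberField L] (P : Ideal (𝓞 L)) (hP : P.IsPrime) (p : ℕ)
    (hp : p.Prime) (hmem : (p : 𝓞 L) ∈ P) : p ∣ Ideal.absNorm P := by
  have h1 : Ideal.absNorm P ∣ p ^ Module.finrank ℤ (𝓞 L) := by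
    have h2 := Ideal.absNorm_dvd_absNorm_of_le ((Ideal.span_singleton_le_iff_mem P).2 hmem)
    have h3 : Ideal.absNorm (Ideal.span {(p : 𝓞 L)}) = p ^ Module.finrank ℤ (𝓞 L) := by
      rw [Ideal.absNorm_span_singleton, ← map_natCast (algebraMap ℤ (𝓞 L)) p, Algebra.norm_algebraMap,
        Int.natAbs_pow]
      rfl
    rwa [h3] at h2
  obtain ⟨k, -, hk⟩ := (Nat.dvd_prime_pow hp).1 h1
  rw [hk]
  refine dvd_pow_self p (fun h0 => hP.ne_top ?_)
  rw [h0, pow_zero] at hk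
  exact Ideal.absNorm_eq_one_iff.1 hk

theorem DEN (hCHEB : Pool.Agent.CH.CHEB_stmt) (hLIF : LIF_stmt) (hNBH : NBH_stmt) : DEN_stmt := by
  classical
  intro K _ _ O T hO hne hT
  obtain ⟨g, hg⟩ := hne
  obtain ⟨L, hfin, hgal, hL⟩ := hNBH K O hO g hg
  have hnf : NumberField L := NumberField.of_module_finite K L
  have hD : differentIdeal (𝓞 K) (𝓞 L) ≠ ⊥ := differentIdeal_ne_bot
  have hDN : Ideal.absNorm (differentIdeal (𝓞 K) (𝓞 L)) ≠ 0 := by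
    rwa [Ne, Ideal.absNorm_eq_zero_iff]
  obtain ⟨p, P, hp, hpT, hP, hnorm, hfrob⟩ := hCHEB K L (AlgEquiv.restrictNormalHom L g)
    ((hT.toFinset.biUnion fun v => (nv K v).primeFactors) ∪
      (Ideal.absNorm (differentIdeal (𝓞 K) (𝓞 L))).primeFactors)
  have hpr : (P.under (𝓞 K)).IsPrime := Ideal.IsPrime.under (𝓞 K) P
  have hbot : P.under (𝓞 K) ≠ ⊥ := by
    intro h
    rw [h, Ideal.absNorm_bot] at hnorm
    exact hp.ne_zero hnorm.symm
  have hmem : (p : 𝓞 L) ∈ P := by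
    have h1 : ((Ideal.absNorm (P.under (𝓞 K)) : ℕ) : 𝓞 K) ∈ P.under (𝓞 K) := Ideal.absNorm_mem _
    rw [hnorm, Ideal.mem_comap, map_natCast] at h1
    exact h1
  have hdiff : ¬ P ∣ differentIdeal (𝓞 K) (𝓞 L) := by
    intro h
    have h1 := (DEN_dvd P hP p hp hmem).trans (map_dvd Ideal.absNorm h)
    exact hpT (Finset.mem_union_right _ (Nat.mem_primeFactors.2 ⟨hp, h1, hDN⟩))
  have hnv : nv K ⟨P.under (𝓞 K), hpr, hbot⟩ = p := hnorm
  have hfr : IsFr (AlgEquiv.restrictNormalHom L g) P (nv K ⟨P.under (𝓞 K), hpr, hbot⟩) := by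
    intro x
    have h1 := hfrob x
    have h2 : Nat.card (𝓞 K ⧸ P.under (𝓞 K)) = nv K ⟨P.under (𝓞 K), hpr, hbot⟩ := by
      rw [hnv, ← hnorm, Ideal.absNorm_apply]
      rfl
    rw [h2] at h1
    exact h1
  obtain ⟨s, hs, hsg⟩ := hLIF K L g P ⟨P.under (𝓞 K), hpr, hbot⟩ hP hdiff rfl hfr
  refine ⟨⟨P.under (𝓞 K), hpr, hbot⟩, fun hvT => hpT ?_, by rw [hnv]; exact hp, s, hs, hL s hsg⟩
  refine Finset.mem_union_left _ (Finset.mem_biUnion.2 ⟨_, hT.mem_toFinset.2 hvT, ?_⟩)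
  rw [hnv]
  exact Nat.mem_primeFactors.2 ⟨hp, dvd_rfl, hp.ne_zero⟩

theorem NNO (hDEN : DEN_stmt) : NNO_stmt := by
  intro K _ _ _ _ μ _ T hT U hU C T' hC hμ hT'
  have hpos : 0 < μ (U : Set (GalK K)) := hU.measure_pos μ ⟨1, U.one_mem⟩
  have hne : ((U : Set (GalK K)) \ C).Nonempty := by
    rw [Set.nonempty_iff_ne_empty]
    intro h
    have h1 : (U : Set (GalK K)) ⊆ C := Set.diff_eq_empty.1 h
    exact hpos.ne' (MeasureTheory.measure_mono_null h1 hμ)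
  obtain ⟨v, hv, hpr, s, hs, hsO⟩ := hDEN K ((U : Set (GalK K)) \ C) (T ∪ T')
    (hU.sdiff hC) hne (hT.union hT')
  exact ⟨v, ⟨fun h => hv (Or.inl h), hpr⟩, fun h => hv (Or.inr h), s, hs, hsO.1, hsO.2⟩

end Pool.Agent.GK
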