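import Pool.Agent.helper16.GK.Spec

/-!
# Rows DEX, DST of project GK (MP_2e0e07_nt): the exponents of the different
-/

set_option autoImplicit false

namespace Pool.Agent.GK

open NumberField IsDedekindDomain nonZeroDivisors
open scoped Pointwise

/-- an ideal divides the different iff the trace maps its inverse into the integers -/
theorem DEX_iff (K L : Type) [Field K] [NumberField K] [Field L] [NumberField L] [Algebra K L]
    (J : Ideal (𝓞 L)) (hJ : J ≠ ⊥) : J ∣ differentIdeal (𝓞 K) (𝓞 L) ↔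
      ∀ z : L, (∀ a ∈ J, ∃ b : 𝓞 L, z * (a : L) = b) → ∃ c : 𝓞 K, Algebra.trace K L z = c := by
  rw [Ideal.dvd_iff_le, differentialIdeal_le_iff (K := K) (L := L) hJ]
  have hJ0 : ((J : Ideal (𝓞 L)) : FractionalIdeal (𝓞 L)⁰ L) ≠ 0 := by simpa using hJ
  have hmem : ∀ z : L, z ∈ ((J : FractionalIdeal (𝓞 L)⁰ L)⁻¹) ↔
      ∀ a ∈ J, ∃ b : 𝓞 L, z * (a : L) = b := by
    intro z
    rw [FractionalIdeal.mem_inv_iff hJ0]
    constructor
    · intro h a ha
      have h1 := h (algebraMap (𝓞 L) L a) (FractionalIdeal.mem_coeIdeal_of_mem _ ha)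
      rw [FractionalIdeal.mem_one_iff] at h1
      obtain ⟨b, hb⟩ := h1
      exact ⟨b, hb.symm⟩
    · intro h y hy
      rw [FractionalIdeal.mem_coeIdeal] at hy
      obtain ⟨a, ha, rfl⟩ := hy
      obtain ⟨b, hb⟩ := h a ha
      rw [FractionalIdeal.mem_one_iff]
      exact ⟨b, hb.symm⟩
  rw [Submodule.map_le_iff_le_comap]
  constructor
  · intro h z hz
    have h1 := h (x := z) ((hmem z).2 hz)
    rw [Submodule.mem_comap, Submodule.mem_one] at h1
    obtain ⟨c, hc⟩ := h1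
    exact ⟨c, hc.symm⟩
  · intro h z hz
    obtain ⟨c, hc⟩ := h z ((hmem z).1 hz)
    rw [Submodule.mem_comap, Submodule.mem_one]
    exact ⟨c, hc.symm⟩

theorem DEX : DEX_stmt := by
  intro K L _ _ _ _ _ v k hdvd
  have hinj : Function.Injective (algebraMap (𝓞 K) (𝓞 L)) :=
    FaithfulSMul.algebraMap_injective (𝓞 K) (𝓞 L)
  rw [← Ideal.map_pow] at hdvd
  have hJ : Ideal.map (algebraMap (𝓞 K) (𝓞 L)) (v.asIdeal ^ k) ≠ ⊥ := by
    rw [Ne, Ideal.map_eq_bot_iff_of_injective hinj]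
    exact pow_ne_zero k v.ne_bot
  rw [DEX_iff K L _ hJ] at hdvd
  have hI0 : ((v.asIdeal ^ k : Ideal (𝓞 K)) : FractionalIdeal (𝓞 K)⁰ K) ≠ 0 := by
    rw [Ne, FractionalIdeal.coeIdeal_eq_zero]
    exact pow_ne_zero k v.ne_bot
  -- the inverse ideal
  have key : ∀ y ∈ ((v.asIdeal ^ k : Ideal (𝓞 K)) : FractionalIdeal (𝓞 K)⁰ K)⁻¹,
      ((Module.finrank K L : ℕ) : K) * y ∈ (1 : FractionalIdeal (𝓞 K)⁰ K) := by
    intro y hy
    rw [FractionalIdeal.mem_inv_iff hI0] at hy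
    have h1 : ∀ a ∈ Ideal.map (algebraMap (𝓞 K) (𝓞 L)) (v.asIdeal ^ k),
        ∃ b : 𝓞 L, algebraMap K L y * (a : L) = b := by
      intro a ha
      rw [Ideal.map] at ha
      induction ha using Submodule.span_induction with
      | mem x hx =>
        obtain ⟨c, hc, rfl⟩ := hx
        have h2 := hy (algebraMap (𝓞 K) K c) (FractionalIdeal.mem_coeIdeal_of_mem _ hc)
        rw [FractionalIdeal.mem_one_iff] at h2
        obtain ⟨b, hb⟩ := h2
        refine ⟨algebraMap (𝓞 K) (𝓞 L) b, ?_⟩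
        have h3 : ((algebraMap (𝓞 K) (𝓞 L) b : 𝓞 L) : L) = algebraMap K L (algebraMap (𝓞 K) K b) :=
          rfl
        have h4 : ((algebraMap (𝓞 K) (𝓞 L) c : 𝓞 L) : L) = algebraMap K L (algebraMap (𝓞 K) K c) :=
          rfl
        rw [h3, h4, hb, map_mul]
      | zero => exact ⟨0, by simp⟩
      | add x z _ _ hx hz =>
        obtain ⟨b, hb⟩ := hx
        obtain ⟨c, hc⟩ := hz
        exact ⟨b + c, by push_cast; rw [mul_add, hb, hc]⟩
      | smul r x _ hx =>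
        obtain ⟨b, hb⟩ := hx
        refine ⟨r * b, ?_⟩
        have e1 : ((r * b : 𝓞 L) : L) = (r : L) * (b : L) := rfl
        have e2 : ((r • x : 𝓞 L) : L) = (r : L) * (x : L) := rfl
        rw [e1, e2, ← hb]
        ring
    obtain ⟨c, hc⟩ := hdvd (algebraMap K L y) h1
    rw [Algebra.trace_algebraMap, nsmul_eq_mul] at hc
    rw [hc, FractionalIdeal.mem_one_iff]
    exact ⟨c, rfl⟩
  have h5 : FractionalIdeal.spanSingleton (𝓞 K)⁰ (((Module.finrank K L : ℕ) : K)) *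
      ((v.asIdeal ^ k : Ideal (𝓞 K)) : FractionalIdeal (𝓞 K)⁰ K)⁻¹ ≤ 1 := by
    rw [FractionalIdeal.spanSingleton_mul_le_iff]
    exact key
  have h6 : FractionalIdeal.spanSingleton (𝓞 K)⁰ (((Module.finrank K L : ℕ) : K)) ≤
      ((v.asIdeal ^ k : Ideal (𝓞 K)) : FractionalIdeal (𝓞 K)⁰ K) := by
    calc FractionalIdeal.spanSingleton (𝓞 K)⁰ (((Module.finrank K L : ℕ) : K))
        = (FractionalIdeal.spanSingleton (𝓞 K)⁰ (((Module.finrank K L : ℕ) : K)) *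
          ((v.asIdeal ^ k : Ideal (𝓞 K)) : FractionalIdeal (𝓞 K)⁰ K)⁻¹) *
            ((v.asIdeal ^ k : Ideal (𝓞 K)) : FractionalIdeal (𝓞 K)⁰ K) := by
          rw [mul_assoc, inv_mul_cancel₀ hI0, mul_one]
      _ ≤ 1 * ((v.asIdeal ^ k : Ideal (𝓞 K)) : FractionalIdeal (𝓞 K)⁰ K) :=
          mul_le_mul_left h5 _
      _ = _ := one_mul _
  have h7 := h6 (FractionalIdeal.mem_spanSingleton_self _ _)
  rw [FractionalIdeal.mem_coeIdeal] at h7
  obtain ⟨x, hx, hxe⟩ := h7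
  have h8 : x = ((Module.finrank K L : ℕ) : 𝓞 K) := by
    apply RingOfIntegers.ext
    exact hxe.trans (map_natCast (algebraMap (𝓞 K) K) _).symm
  rw [← h8]
  exact hx

theorem DST : DST_stmt := by
  intro K L _ _ _ _ _ _ P P' k hP hP' hPP hdvd
  obtain ⟨σ, hσ⟩ := Algebra.IsInvariant.exists_smul_of_under_eq (𝓞 K) (𝓞 L) Gal(L/K) P P' hPP
  by_cases hP0 : P = ⊥
  · have h1 : P' = ⊥ := by
      apply Ideal.eq_bot_of_comap_eq_bot (R := 𝓞 K)
      rw [show Ideal.comap (algebraMap (𝓞 K) (𝓞 L)) P' = P'.under (𝓞 K) from rfl, ← hPP, hP0]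
      exact Ideal.comap_bot_of_injective _ (FaithfulSMul.algebraMap_injective (𝓞 K) (𝓞 L))
    rw [h1]
    rwa [hP0] at hdvd
  have hP'0 : P' ≠ ⊥ := by
    intro h
    apply hP0
    apply Ideal.eq_bot_of_comap_eq_bot (R := 𝓞 K)
    rw [show Ideal.comap (algebraMap (𝓞 K) (𝓞 L)) P = P.under (𝓞 K) from rfl, hPP, h]
    exact Ideal.comap_bot_of_injective _ (FaithfulSMul.algebraMap_injective (𝓞 K) (𝓞 L))
  rw [DEX_iff K L _ (pow_ne_zero k hP0)] at hdvd
  rw [DEX_iff K L _ (pow_ne_zero k hP'0)]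
  intro z hz
  have hmap : ∀ a ∈ P ^ k, σ • a ∈ P' ^ k := by
    intro a ha
    have h1 : P' ^ k = Ideal.map (MulSemiringAction.toRingHom Gal(L/K) (𝓞 L) σ) (P ^ k) := by
      rw [hσ, Ideal.map_pow]
      rfl
    rw [h1]
    exact Ideal.mem_map_of_mem _ ha
  obtain ⟨c, hc⟩ := hdvd (σ.symm z) (by
    intro a ha
    obtain ⟨b, hb⟩ := hz (σ • a) (hmap a ha)
    refine ⟨σ⁻¹ • b, ?_⟩
    have h2 : ((σ • a : 𝓞 L) : L) = σ (a : L) := rfl
    have h3 : ((σ⁻¹ • b : 𝓞 L) : L) = σ.symm (b : L) := rfl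
    rw [h3, ← hb, h2, map_mul, AlgEquiv.symm_apply_apply])
  refine ⟨c, ?_⟩
  rw [← hc]
  exact (Algebra.trace_eq_of_algEquiv σ.symm z).symm

end Pool.Agent.GK
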