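import Pool.Agent.helper16.GK.Spec

/-!
# Row DIF of project GK (MP_2e0e07_nt): the primes of the different are those with nontrivial inertia
-/

set_option autoImplicit false

namespace Pool.Agent.GK

open NumberField IsDedekindDomain

theorem DIF_perfect (K : Type) [Field K] [NumberField K] (p : Ideal (𝓞 K)) [p.IsPrime] (hp : p ≠ ⊥) :
    PerfectField p.ResidueField := by
  have hmax : p.IsMaximal := Ideal.IsPrime.isMaximal inferInstance hp
  have h1 : Finite (𝓞 K ⧸ p) := Ideal.finiteQuotientOfFreeOfNeBot p hp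
  have h2 : Finite p.ResidueField := by
    have hsurj : Function.Surjective (algebraMap (𝓞 K ⧸ p) p.ResidueField) :=
      Ideal.bijective_algebraMap_quotient_residueField p |>.surjective
    exact Finite.of_surjective _ hsurj
  infer_instance

theorem DIF_card (K L : Type) [Field K] [NumberField K] [Field L] [NumberField L] [Algebra K L]
    [IsGalois K L] (P : Ideal (𝓞 L)) [P.IsPrime] (hP0 : P ≠ ⊥) :
    ¬ P ∣ differentIdeal (𝓞 K) (𝓞 L) ↔ Nat.card (P.inertia Gal(L/K)) = 1 := by
  have hlo : P.LiesOver (P.under (𝓞 K)) := ⟨rfl⟩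
  have hbot : P.under (𝓞 K) ≠ ⊥ := fun h => hP0 (Ideal.eq_bot_of_comap_eq_bot h)
  have hperf : PerfectField (P.under (𝓞 K)).ResidueField := DIF_perfect K _ hbot
  rw [not_dvd_differentIdeal_iff, ← Ideal.ramificationIdx_eq_one_iff,
    Ideal.card_inertia_eq_ramificationIdxIn (R := 𝓞 K) (P.under (𝓞 K)) P,
    Ideal.ramificationIdxIn_eq_ramificationIdx (P.under (𝓞 K)) P Gal(L/K)]

theorem DIF : DIF_stmt := by
  intro K L _ _ _ _ _ _ P hP hP0
  rw [← not_iff_not, DIF_card K L P hP0]
  constructor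
  · intro h
    rintro ⟨σ, hσ, hx⟩
    rw [Nat.card_eq_one_iff_unique] at h
    have h1 : (⟨σ, fun x => hx x⟩ : P.inertia Gal(L/K)) = 1 := h.1.elim _ _
    exact hσ (congrArg Subtype.val h1)
  · intro h
    push Not at h
    rw [Nat.card_eq_one_iff_unique]
    refine ⟨⟨fun a b => ?_⟩, ⟨1⟩⟩
    have h1 : ∀ c : P.inertia Gal(L/K), c = 1 := by
      intro c
      by_contra hc
      obtain ⟨x, hx⟩ := h c.1 (fun h0 => hc (Subtype.ext h0))
      exact hx (c.2 x)
    rw [h1 a, h1 b]

end Pool.Agent.GK
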