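import Pool.Agent.helper16.GK.Spec

/-!
# Row DSR of project GK (MP_2e0e07_nt): the discriminant bound
-/

set_option autoImplicit false

namespace Pool.Agent.GK

open NumberField IsDedekindDomain

theorem DSR_dvd {R : Type} [CommRing R] [IsDedekindDomain R] (I J : Ideal R) (hI : I ≠ ⊥)
    (hJ : J ≠ ⊥) (h : ∀ P : Ideal R, P.IsPrime → ∀ m : ℕ, P ^ m ∣ I → P ^ m ∣ J) : I ∣ J := by
  classical
  rw [UniqueFactorizationMonoid.dvd_iff_normalizedFactors_le_normalizedFactors hI hJ,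
    Multiset.le_iff_count]
  intro P
  by_cases hP : P ∈ UniqueFactorizationMonoid.normalizedFactors I
  · have hPpr : Prime P := UniqueFactorizationMonoid.prime_of_normalized_factor P hP
    have hPP : P.IsPrime := Ideal.isPrime_of_prime hPpr
    have hirr : Irreducible P := hPpr.irreducible
    have h1 : P ^ (Multiset.count P (UniqueFactorizationMonoid.normalizedFactors I)) ∣ I := by
      rw [pow_dvd_iff_le_emultiplicity,
        UniqueFactorizationMonoid.emultiplicity_eq_count_normalizedFactors hirr hI, normalize_eq]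
    have h2 := h P hPP _ h1
    rw [pow_dvd_iff_le_emultiplicity,
      UniqueFactorizationMonoid.emultiplicity_eq_count_normalizedFactors hirr hJ,
      normalize_eq] at h2
    exact_mod_cast h2
  · rw [Multiset.count_eq_zero_of_notMem hP]
    exact Nat.zero_le _

theorem DSR (hDMU : DMU_stmt) : DSR_stmt := by
  classical
  intro B
  refine ⟨B * (B ^ 2 + 1), ?_⟩
  intro K L _ _ _ _ _ _ R hB hR
  have hfin : FiniteDimensional K L := inferInstance
  have hn : Module.finrank K L ≤ B := by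
    have h1 : Module.finrank ℚ K * Module.finrank K L = Module.finrank ℚ L :=
      Module.finrank_mul_finrank ℚ K L
    have h2 : 0 < Module.finrank ℚ K := Module.finrank_pos
    nlinarith
  have hinj : Function.Injective (algebraMap (𝓞 K) (𝓞 L)) :=
    FaithfulSMul.algebraMap_injective (𝓞 K) (𝓞 L)
  have hD : differentIdeal (𝓞 K) (𝓞 L) ≠ ⊥ := differentIdeal_ne_bot
  obtain ⟨J, hJ⟩ : ∃ J : Ideal (𝓞 L), J = ∏ v ∈ R,
    (v.asIdeal.map (algebraMap (𝓞 K) (𝓞 L))) ^ (B ^ 2 + 1) := ⟨_, rfl⟩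
  have hJ0 : J ≠ ⊥ := by
    rw [hJ, ← Ideal.zero_eq_bot, Finset.prod_ne_zero_iff]
    intro v _
    refine pow_ne_zero _ ?_
    rw [Ideal.zero_eq_bot, Ne, Ideal.map_eq_bot_iff_of_injective hinj]
    exact v.ne_bot
  have hdvd : differentIdeal (𝓞 K) (𝓞 L) ∣ J := by
    refine DSR_dvd _ _ hD hJ0 (fun P hP m hm => ?_)
    rcases Nat.eq_zero_or_pos m with rfl | hm0
    · rw [pow_zero]
      exact one_dvd _
    have h1 : P ∣ differentIdeal (𝓞 K) (𝓞 L) := (dvd_pow_self P hm0.ne').trans hm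
    obtain ⟨v, hv, hPv⟩ := hR P hP h1
    refine (hDMU B K L v P m hB hP hPv hm).trans ?_
    rw [hJ]
    exact Finset.dvd_prod_of_mem (fun v : Pl K =>
      (v.asIdeal.map (algebraMap (𝓞 K) (𝓞 L))) ^ (B ^ 2 + 1)) hv
  have hnorm : Ideal.absNorm (differentIdeal (𝓞 K) (𝓞 L)) ≤
      (∏ v ∈ R, nv K v) ^ (B * (B ^ 2 + 1)) := by
    have h1 : Ideal.absNorm (differentIdeal (𝓞 K) (𝓞 L)) ∣ Ideal.absNorm J :=
      map_dvd Ideal.absNorm hdvd
    have h2 : Ideal.absNorm J ≠ 0 := by rwa [Ne, Ideal.absNorm_eq_zero_iff]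
    have h3 : Ideal.absNorm J = (∏ v ∈ R, nv K v) ^ (Module.finrank K L * (B ^ 2 + 1)) := by
      rw [hJ, map_prod, ← Finset.prod_pow]
      refine Finset.prod_congr rfl (fun v _ => ?_)
      rw [map_pow, Ideal.absNorm_algebraMap, ← IsFractionRing.finrank_eq (𝓞 K) K (𝓞 L) L,
        pow_mul]
      rfl
    have h4 : 1 ≤ ∏ v ∈ R, nv K v := by
      refine Nat.one_le_iff_ne_zero.2 (Finset.prod_ne_zero_iff.2 (fun v _ => ?_))
      rw [nv, Ne, Ideal.absNorm_eq_zero_iff]
      exact v.ne_bot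
    calc Ideal.absNorm (differentIdeal (𝓞 K) (𝓞 L)) ≤ Ideal.absNorm J :=
          Nat.le_of_dvd (Nat.pos_of_ne_zero h2) h1
      _ = (∏ v ∈ R, nv K v) ^ (Module.finrank K L * (B ^ 2 + 1)) := h3
      _ ≤ _ := Nat.pow_le_pow_right h4 (Nat.mul_le_mul_right _ hn)
  have hdisc := NumberField.natAbs_discr_eq_absNorm_differentIdeal_mul_natAbs_discr_pow K (𝓞 K) L
    (𝓞 L)
  have h5 : 1 ≤ (discr K).natAbs := Int.natAbs_pos.2 (discr_ne_zero K)
  rw [hdisc, mul_comm]
  exact Nat.mul_le_mul (Nat.pow_le_pow_right h5 hn) hnorm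

end Pool.Agent.GK
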