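import Pool.Agent.helper16.GK.Spec

/-!
# Rows GUP, NBH, LIF of project GK (MP_2e0e07_nt)
-/

set_option autoImplicit false

namespace Pool.Agent.GK

open NumberField IsDedekindDomain

theorem GUP : GUP_stmt := by
  intro L Ω _ _ _ _ P hP
  have hint : Algebra.IsIntegral (𝓞 L) (𝓞 Ω) := inferInstance
  have hinj : Function.Injective (algebraMap (𝓞 L) (𝓞 Ω)) := by
    intro x y h
    apply RingOfIntegers.ext
    have h1 := congrArg (fun z : 𝓞 Ω => (z : Ω)) h
    exact (algebraMap L Ω).injective h1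
  obtain ⟨Q, -, hQ, hQP⟩ := Ideal.exists_ideal_over_prime_of_isIntegral P (⊥ : Ideal (𝓞 Ω)) (by
    rw [Ideal.comap_bot_of_injective _ hinj]
    exact bot_le)
  exact ⟨Q, hQ, hQP⟩

theorem NBH : NBH_stmt := by
  intro K _ _ O hO g hg
  have h1 : {s : GalK K | g * s ∈ O} ∈ nhds (1 : GalK K) := by
    refine IsOpen.mem_nhds (hO.preimage (continuous_const_mul g)) ?_
    change g * 1 ∈ O
    rwa [mul_one]
  rw [krullTopology_mem_nhds_one_iff_of_normal] at h1
  obtain ⟨L, hfin, hnorm, hL⟩ := h1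
  refine ⟨L, hfin, ⟨⟩, fun s hs => ?_⟩
  have h2 : g⁻¹ * s ∈ L.fixingSubgroup := by
    rw [IntermediateField.mem_fixingSubgroup_iff]
    intro x hx
    rw [AlgEquiv.mul_apply, hs x hx]
    exact AlgEquiv.symm_apply_apply g x
  have h3 := hL h2
  change g * (g⁻¹ * s) ∈ O at h3
  rwa [mul_inv_cancel_left] at h3

theorem LIF (hFRQ : FRQ_stmt) (hGUP : GUP_stmt) (hUNF : UNF_stmt) : LIF_stmt := by
  intro K _ _ L _ _ _ g P v hP hdiff hPv hfr
  obtain ⟨Q, hQ, hQP⟩ := hGUP L (AlgebraicClosure K) P hP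
  have hQv : Q.under (𝓞 K) = v.asIdeal := by
    rw [← hPv, ← hQP, Ideal.under_under]
  obtain ⟨s, hs⟩ := hFRQ K Q v hQ hQv
  refine ⟨s, ⟨Q, hQ, hQv, hs⟩, ?_⟩
  have hP0 : P ≠ ⊥ := by
    rintro rfl
    apply v.ne_bot
    rw [← hPv]
    exact Ideal.comap_bot_of_injective _ (FaithfulSMul.algebraMap_injective (𝓞 K) (𝓞 L))
  have h1 : IsFr (AlgEquiv.restrictNormalHom L s) P (nv K v) := by
    intro x
    rw [← hQP]
    have h2 := hs (algebraMap (𝓞 L) (𝓞 (AlgebraicClosure K)) x)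
    have h3 : algebraMap (𝓞 L) (𝓞 (AlgebraicClosure K))
        ((AlgEquiv.restrictNormalHom L s) • x - x ^ nv K v) =
        s • (algebraMap (𝓞 L) (𝓞 (AlgebraicClosure K)) x) -
          (algebraMap (𝓞 L) (𝓞 (AlgebraicClosure K)) x) ^ nv K v := by
      rw [map_sub, map_pow]
      congr 1
      apply RingOfIntegers.ext
      exact AlgEquiv.restrictNormal_commutes s L (x : L)
    rw [Ideal.mem_comap, h3]
    exact h2
  have h4 := hUNF K L P (nv K v) _ _ hP hP0 hdiff h1 hfr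
  intro x hx
  have h5 := AlgEquiv.restrictNormal_commutes s L ⟨x, hx⟩
  have h6 := AlgEquiv.restrictNormal_commutes g L ⟨x, hx⟩
  have h7 : (AlgEquiv.restrictNormal s L) = (AlgEquiv.restrictNormal g L) := h4
  rw [h7] at h5
  exact h5.symm.trans h6

end Pool.Agent.GK
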