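import Pool.Agent.helper16.GK.Spec

/-!
# Rows STB and TRS of project GK (MP_2e0e07_nt): infinite Galois extensions of number fields
-/

set_option autoImplicit false

namespace Pool.Agent.GK

open NumberField IsDedekindDomain
open scoped Pointwise

theorem STB_frac (M Ω : Type) [Field M] [NumberField M] [Field Ω] [Algebra M Ω] [IsGalois M Ω] :
    IsFractionRing (𝓞 Ω) Ω := by
  have h0 : CharZero Ω := charZero_of_injective_algebraMap (algebraMap M Ω).injective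
  have h1 : Algebra.IsAlgebraic ℚ M := inferInstance
  have h2 : Algebra.IsAlgebraic ℚ Ω := Algebra.IsAlgebraic.trans ℚ M Ω
  have h3 : Algebra.IsAlgebraic ℤ Ω := (IsFractionRing.comap_isAlgebraic_iff (K := ℚ)).2 h2
  exact integralClosure.isFractionRing_of_algebraic (A := ℤ) (L := Ω) (fun x hx => by
    rwa [eq_intCast, Int.cast_eq_zero] at hx)

theorem STB_gal (M Ω : Type) [Field M] [NumberField M] [Field Ω] [Algebra M Ω] [IsGalois M Ω] :
    IsGaloisGroup Gal(Ω/M) (𝓞 M) (𝓞 Ω) := by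
  have h1 := STB_frac M Ω
  exact IsGaloisGroup.of_isFractionRing Gal(Ω/M) (𝓞 M) (𝓞 Ω) M Ω

theorem STB_comm (M Ω : Type) [Field M] [NumberField M] [Field Ω] [Algebra M Ω] [IsGalois M Ω] :
    SMulCommClass Gal(Ω/M) (𝓞 M) (𝓞 Ω) := by
  have := STB_gal M Ω
  infer_instance

theorem STB_inv (M Ω : Type) [Field M] [NumberField M] [Field Ω] [Algebra M Ω] [IsGalois M Ω] :
    Algebra.IsInvariant (𝓞 M) (𝓞 Ω) Gal(Ω/M) := by
  have := STB_gal M Ω
  infer_instance

theorem STB_cont (M Ω : Type) [Field M] [Field Ω] [Algebra M Ω]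
    [TopologicalSpace (𝓞 Ω)] [DiscreteTopology (𝓞 Ω)] : ContinuousSMul Gal(Ω/M) (𝓞 Ω) := by
  refine ⟨?_⟩
  rw [continuous_def]
  intro s _
  rw [isOpen_iff_mem_nhds]
  rintro ⟨g, x⟩ hgx
  have hint : IsIntegral M (x : Ω) := IsIntegral.tower_top (R := ℤ) x.2
  have hopen : IsOpen ((IntermediateField.adjoin M {(x : Ω)}).fixingSubgroup : Set Gal(Ω/M)) := by
    have : FiniteDimensional M (IntermediateField.adjoin M {(x : Ω)}) :=
      IntermediateField.adjoin.finiteDimensional hint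
    exact IntermediateField.fixingSubgroup_isOpen _
  have hmem : ((fun σ : Gal(Ω/M) => g⁻¹ * σ) ⁻¹'
      ((IntermediateField.adjoin M {(x : Ω)}).fixingSubgroup : Set Gal(Ω/M))) ×ˢ
      ({x} : Set (𝓞 Ω)) ∈ nhds (g, x) := by
    refine IsOpen.mem_nhds ((hopen.preimage (continuous_const_mul _)).prod (isOpen_discrete _)) ?_
    refine ⟨?_, rfl⟩
    rw [Set.mem_preimage, inv_mul_cancel]
    exact Subgroup.one_mem _
  refine Filter.mem_of_superset hmem ?_
  rintro ⟨σ, y⟩ ⟨hσ, hy⟩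
  rw [Set.mem_singleton_iff] at hy
  dsimp only at hy
  subst hy
  have h1 : (g⁻¹ * σ) (y : Ω) = y := by
    have := hσ
    rw [Set.mem_preimage, SetLike.mem_coe, IntermediateField.mem_fixingSubgroup_iff] at this
    exact this _ (IntermediateField.mem_adjoin_simple_self M (y : Ω))
  have h2 : σ (y : Ω) = g y := by
    have h3 := congrArg g h1
    rw [AlgEquiv.mul_apply] at h3
    rw [← h3]
    exact (AlgEquiv.apply_symm_apply g _).symm
  have h4 : σ • y = g • y := RingOfIntegers.ext h2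
  change σ • y ∈ s
  rw [h4]
  exact hgx

theorem STB : STB_stmt := by
  intro M Ω _ _ _ _ _ Q hQ φ hφ
  let _ : TopologicalSpace (𝓞 Ω) := ⊥
  have : DiscreteTopology (𝓞 Ω) := ⟨rfl⟩
  have := STB_comm M Ω
  have := STB_inv M Ω
  have := STB_cont M Ω
  have : Q.LiesOver (Q.under (𝓞 M)) := ⟨rfl⟩
  let ψ : (𝓞 Ω ⧸ Q) ≃ₐ[𝓞 M ⧸ Q.under (𝓞 M)] (𝓞 Ω ⧸ Q) :=
    AlgEquiv.ofRingEquiv (f := φ) (fun r => by
      obtain ⟨x, rfl⟩ := Ideal.Quotient.mk_surjective r
      exact hφ x)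
  obtain ⟨⟨σ, hσ⟩, h⟩ := Ideal.Quotient.stabilizerHom_surjective_of_profinite (G := Gal(Ω/M))
    (Q.under (𝓞 M)) Q ψ
  refine ⟨σ, fun x => ?_⟩
  exact DFunLike.congr_fun h (Ideal.Quotient.mk Q x)

theorem TRS : TRS_stmt := by
  intro M Ω _ _ _ _ _ Q Q' hQ hQ' h
  let _ : TopologicalSpace (𝓞 Ω) := ⊥
  have : DiscreteTopology (𝓞 Ω) := ⟨rfl⟩
  have := STB_comm M Ω
  have := STB_inv M Ω
  have := STB_cont M Ω
  obtain ⟨σ, hσ⟩ := Algebra.IsInvariant.exists_smul_of_under_eq_of_profinite (A := 𝓞 M)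
    (G := Gal(Ω/M)) Q Q' h
  refine ⟨σ, fun x => ?_⟩
  rw [hσ, Ideal.smul_mem_pointwise_smul_iff]

end Pool.Agent.GK
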