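import Pool.Agent.helper16.GK.STB

/-! Row TRS of project GK is in `Pool/Agent/helper16/GK/STB.lean`. -/
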