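import Pool.Agent.helper16.GK.Spec
import Pool.Agent.helper16.GK.STB
import Pool.Agent.helper16.GK.TRS
import Pool.Agent.helper16.GK.GUP
import Pool.Agent.helper16.GK.DEN
import Pool.Agent.helper16.GK.DIF
import Pool.Agent.helper16.GK.DEX
import Pool.Agent.helper16.GK.DSR
import Pool.Agent.helper3.GK.UNR
import Pool.Agent.helper83.GK.INR
import Pool.Agent.helper39.GK.UNF
import Pool.Agent.helper40.GK.FRQ
import Pool.Agent.helper34.GK.FXU
import Pool.Agent.helper67.GK.DMU
import Pool.Agent.helper44.GK.EFC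
import Pool.Agent.helper14.GK.GSW

/-!
# Project GK: assembly of all rows which do not use row FRB
-/

set_option autoImplicit false

namespace Pool.Agent.GK

theorem UNF_all : UNF_stmt := UNF DIF

theorem FRQ_all : FRQ_stmt := FRQ STB

theorem LIF_all : LIF_stmt := LIF FRQ_all GUP UNF_all

theorem INR_all : INR_stmt := INR STB TRS DIF GUP

theorem DMU_all : DMU_stmt := DMU DST DEX

theorem DSR_all : DSR_stmt := DSR DMU_all

theorem DEN_all (hCHEB : Pool.Agent.CH.CHEB_stmt) : DEN_stmt := DEN hCHEB LIF_all NBH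

theorem NNO_all (hCHEB : Pool.Agent.CH.CHEB_stmt) : NNO_stmt := NNO (DEN_all hCHEB)

theorem EFC_all (hCHEBE : Pool.Agent.CH.CHEBE_stmt) : EFC_stmt := EFC hCHEBE DSR_all FXU INR_all LIF_all

end Pool.Agent.GK
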