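import Pool.Agent.helper16.GK.All1
import Pool.Agent.helper82.CH.AllA

/-!
# Project GK: the theorems which use Chebotarev's theorem (existence form), without hypotheses
-/

set_option autoImplicit false

namespace Pool.Agent.GK

theorem DEN_thm : DEN_stmt := DEN_all Pool.Agent.CH.CHEB_all

theorem FRB_thm : FRB_stmt := FRB_all Pool.Agent.CH.CHEB_all

theorem NNO_thm : NNO_stmt := NNO_all Pool.Agent.CH.CHEB_all

theorem GSW_thm : GSW_stmt := GSW_all Pool.Agent.CH.CHEB_all

end Pool.Agent.GK
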