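import Mathlib

/-!
# Project GK (MP_2e0e07_nt): the absolute Galois group of a number field and its Frobenius elements

`K` is a number field, `Gal(AlgebraicClosure K/K)` its absolute Galois group with the Krull topology,
`𝓞 (AlgebraicClosure K)` the ring of all algebraic integers, the places of `K` are the nonzero prime
ideals of `𝓞 K`.
-/

set_option autoImplicit false

namespace Pool.Agent.GK

open NumberField IsDedekindDomain

/-- The absolute Galois group of `K`, with the Krull topology of Mathlib. -/
abbrev GalK (K : Type) [Field K] : Type := Gal(AlgebraicClosure K/K)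

/-- The finite places of `K`: the nonzero prime ideals of the ring of integers. -/
abbrev Pl (K : Type) [Field K] : Type := HeightOneSpectrum (𝓞 K)

/-- The norm of the place `v`, the number of elements of its residue field. -/
noncomputable def nv (K : Type) [Field K] [NumberField K] (v : Pl K) : ℕ := Ideal.absNorm v.asIdeal

/-- `σ` is an arithmetic Frobenius element at the prime ideal `Q` of the ring of the integers of `L`,
where `q` is the number of the elements of the residue field of the ideal of `K` below. -/
def IsFr {K L : Type} [Field K] [Field L] [Algebra K L] (σ : Gal(L/K)) (Q : Ideal (𝓞 L)) (q : ℕ) :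
    Prop :=
  ∀ x : 𝓞 L, σ • x - x ^ q ∈ Q

/-- The arithmetic Frobenius elements in the absolute Galois group at all prime ideals `Q` of the ring
of all algebraic integers which lie over the place `v`. -/
def frob (K : Type) [Field K] [NumberField K] (v : Pl K) : Set (GalK K) :=
  {σ | ∃ Q : Ideal (𝓞 (AlgebraicClosure K)), Q.IsPrime ∧ Q.under (𝓞 K) = v.asIdeal ∧
    IsFr σ Q (nv K v)}

/-- The elements of the inertia groups at all prime ideals `Q` of the ring of all algebraic integers
which lie over the place `v`. -/
def inert (K : Type) [Field K] (v : Pl K) : Set (GalK K) :=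
  {σ | ∃ Q : Ideal (𝓞 (AlgebraicClosure K)), Q.IsPrime ∧ Q.under (𝓞 K) = v.asIdeal ∧
    ∀ x : 𝓞 (AlgebraicClosure K), σ • x - x ∈ Q}

/-- Chebotarev's theorem for finite Galois extensions of number fields: every `σ` is a Frobenius
element at a prime ideal over a place of `K` outside of a given finite set, whose norm is a prime
number. -/
def CHF_stmt : Prop := ∀ (K L : Type) [Field K] [NumberField K] [Field L] [NumberField L]
  [Algebra K L] [IsGalois K L] (σ : Gal(L/K)) (T : Set (Ideal (𝓞 K))), T.Finite →
  ∃ Q : Ideal (𝓞 L), Q.IsPrime ∧ Q ≠ ⊥ ∧ Q.under (𝓞 K) ∉ T ∧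
    (Ideal.absNorm (Q.under (𝓞 K))).Prime ∧ IsFr σ Q (Ideal.absNorm (Q.under (𝓞 K)))

end Pool.Agent.GK
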