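import Mathlib
import Pool.Agent.helper16.GK.Defs
import Pool.Agent.helper16.PU.Defs
import Pool.Agent.helper67.RG.FDefs
import Pool.Agent.helper82.CH.Defs

/-!
# Project GK (MP_2e0e07_nt): from Chebotarev's theorem for finite extensions to the absolute Galois group

Owner helper16. Definitions: `Pool/Agent/helper16/GK/Defs.lean` (`GalK K`, `Pl K`, `nv K v`, `IsFr σ Q q`, `frob K v`, `inert K v`).

RULES. Row `gk:XXX`, file `Pool/Agent/<seat>/GK/XXX.lean`:

  import Pool.Agent.helper16.GK.Spec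
  set_option autoImplicit false
  namespace Pool.Agent.GK
  open NumberField IsDedekindDomain
  theorem XXX (hYYY : YYY_stmt) ... : XXX_stmt

Other rows only as hypotheses; unused ones may be dropped, others may be added (no circles). Auxiliary lemmas prefixed `XXX_`. No sorry, no `convert`, no `congr!`, no straight double quotes. Facts on
instances: `Gal(L/K)` acts on `𝓞 L` by the instance of Mathlib (`NumberField/Basic.lean`: `σ • x` with `((σ • x : 𝓞 L) : L) = σ x`, `algebraMap.smul'` / `SMulDistribClass`, or `rfl`); `Algebra.IsInvariant (𝓞 K) (𝓞 L) Gal(L/K)` is an instance for finite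
Galois `L / K`; `CompactSpace`, `IsTopologicalGroup`, `TotallyDisconnectedSpace` of `Gal(Ω/M)` are instances for `IsGalois M Ω`; for `L : IntermediateField K (AlgebraicClosure K)` finite over `K`: `NumberField.of_module_finite K L : NumberField L`.
-/

set_option autoImplicit false

namespace Pool.Agent.GK

open NumberField IsDedekindDomain

/-! ## A. Infinite Galois extensions -/

/-- **STB** (medium). The stabiliser of `Q` maps onto the automorphisms of the residue ring. Proof: `Ideal.Quotient.stabilizerHom_surjective_of_profinite` (`Mathlib/RingTheory/Invariant/Profinite.lean`) for `A = 𝓞 M`, `B = 𝓞 Ω` (discrete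
topology), `G = Gal(Ω/M)`, `P = Q.under (𝓞 M)`. Needed: `SMulCommClass G (𝓞 M) (𝓞 Ω)` (`Subtype.ext`/`RingOfIntegers.ext`, `σ` is `M`-linear); `Algebra.IsInvariant (𝓞 M) (𝓞 Ω) G`: if `σ x = x` for all `σ` then `x` (in `Ω`) is in the image of `M` (`InfiniteGalois.mem_bot_iff_fixed`
or `IsGalois` + `IntermediateField.adjoin`: the normal closure of `M(x)` is finite Galois and `σ` extend), and integral; `ContinuousSMul G (𝓞 Ω)` for the discrete topology: stabilisers of points are open (`IntermediateField.fixingSubgroup_isOpen` for `M⟮x⟯`, or `krullTopology` lemmas). `φ` gives an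
`AlgEquiv` over `𝓞 M ⧸ P`. -/
def STB_stmt : Prop := ∀ (M Ω : Type) [Field M] [NumberField M] [Field Ω] [Algebra M Ω] [IsGalois M Ω]
  (Q : Ideal (𝓞 Ω)), Q.IsPrime → ∀ φ : (𝓞 Ω ⧸ Q) ≃+* (𝓞 Ω ⧸ Q),
  (∀ x : 𝓞 M, φ (Ideal.Quotient.mk Q (algebraMap (𝓞 M) (𝓞 Ω) x)) = Ideal.Quotient.mk Q (algebraMap (𝓞 M) (𝓞 Ω) x)) →
  ∃ σ : Gal(Ω/M), ∀ x : 𝓞 Ω, Ideal.Quotient.mk Q (σ • x) = φ (Ideal.Quotient.mk Q x)

/-- **TRS** (medium; the same instances as STB). Transitivity. Proof: `Algebra.IsInvariant.exists_smul_of_under_eq_of_profinite`: `Q' = σ • Q`, `Ideal.pointwise_smul_def` / `Ideal.pointwise_smul_eq_comap`. -/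
def TRS_stmt : Prop := ∀ (M Ω : Type) [Field M] [NumberField M] [Field Ω] [Algebra M Ω] [IsGalois M Ω]
  (Q Q' : Ideal (𝓞 Ω)), Q.IsPrime → Q'.IsPrime → Q.under (𝓞 M) = Q'.under (𝓞 M) →
  ∃ σ : Gal(Ω/M), ∀ x : 𝓞 Ω, x ∈ Q ↔ σ • x ∈ Q'

/-- **FRQ** (short-medium; from STB). Frobenius elements exist. Proof: `q = nv K v = Nat.card (𝓞 K ⧸ v.asIdeal)` (`Ideal.absNorm_apply`, `Submodule.cardQuot`); `𝓞 K ⧸ v` is a finite field, `k = 𝓞 (AlgebraicClosure K) ⧸ Q` is a domain, integral over it, hence a field, of characteristic `p`, and `q` is a power of `p`; `x ↦ x ^ q`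
is a ring homomorphism `k → k` (`iterateFrobenius`), injective; it is surjective: `k / (𝓞 K ⧸ v)` is algebraic (`FiniteField.frobeniusAlgEquivOfAlgebraic`; or directly: every `x ∈ k` is in a finite subfield). It is the identity on the image of `𝓞 K` (`FiniteField.pow_card`). -/
def FRQ_stmt : Prop := ∀ (K : Type) [Field K] [NumberField K] (Q : Ideal (𝓞 (AlgebraicClosure K))) (v : Pl K),
  Q.IsPrime → Q.under (𝓞 K) = v.asIdeal → ∃ σ : GalK K, IsFr σ Q (nv K v)

/-- **GUP** (short). Going up. Proof: `Ideal.exists_ideal_over_prime_of_isIntegral` (the integral closure is integral; `Algebra.IsIntegral (𝓞 L) (𝓞 Ω)` is an instance or `IsIntegralClosure`-lemma, `tower_top` from `ℤ`). -/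
def GUP_stmt : Prop := ∀ (L Ω : Type) [Field L] [Field Ω] [Algebra L Ω] [CharZero L] (P : Ideal (𝓞 L)), P.IsPrime →
  ∃ Q : Ideal (𝓞 Ω), Q.IsPrime ∧ Q.under (𝓞 L) = P

/-- **NBH** (short). A neighbourhood of `g` contains all elements which agree with `g` on a finite Galois extension. Proof: `krullTopology_mem_nhds_one_iff_of_normal` (or `krullTopology_mem_nhds_one_iff` and the normal closure) for `{s | g * s ∈ O}`. -/
def NBH_stmt : Prop := ∀ (K : Type) [Field K] [NumberField K] (O : Set (GalK K)), IsOpen O → ∀ g ∈ O,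
  ∃ L : IntermediateField K (AlgebraicClosure K), FiniteDimensional K L ∧ IsGalois K L ∧
    ∀ s : GalK K, (∀ x ∈ L, s x = g x) → s ∈ O

/-- **FXU** (short-medium). An open normal subgroup is the group of a finite Galois extension. Proof: Mathlib `FieldTheory/Galois/Infinite.lean` (`InfiniteGalois.fixingSubgroup_fixedField` for closed subgroups, open subgroups are closed; `InfiniteGalois.isOpen_iff_finite`, `InfiniteGalois.normal_iff_isGalois`, `InfiniteGalois.normalAutEquivQuotient` or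
`IsGalois.card_aut_eq_finrank`). -/
def FXU_stmt : Prop := ∀ (K : Type) [Field K] [NumberField K] (U : Subgroup (GalK K)), IsOpen (U : Set (GalK K)) → U.Normal →
  ∃ L : IntermediateField K (AlgebraicClosure K), FiniteDimensional K L ∧ IsGalois K L ∧ Module.finrank K L = U.index ∧
    ∀ s : GalK K, s ∈ U ↔ ∀ x ∈ L, s x = x

/-! ## B. Ramification -/

/-- **DIF** (medium). A prime divides the different if and only if its inertia group is not trivial. Proof: `not_dvd_differentIdeal_iff` (`Algebra.IsUnramifiedAt`), `Algebra.isUnramifiedAt_iff...` (ramification index one, the residue fields are finite, so separable), `Ideal.card_inertia_eq_ramificationIdxIn` (`Mathlib/NumberTheory/RamificationInertia/Galois.lean`),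
`Ideal.ramificationIdxIn_eq_ramificationIdx`. (One direction also by `AlgHom.IsArithFrobAt.eq_of_isUnramifiedAt`.) -/
def DIF_stmt : Prop := ∀ (K L : Type) [Field K] [NumberField K] [Field L] [NumberField L] [Algebra K L] [IsGalois K L]
  (P : Ideal (𝓞 L)), P.IsPrime → P ≠ ⊥ →
  (P ∣ differentIdeal (𝓞 K) (𝓞 L) ↔ ∃ σ : Gal(L/K), σ ≠ 1 ∧ ∀ x : 𝓞 L, σ • x - x ∈ P)

/-- **UNF** (short; from DIF). The Frobenius element at an unramified prime is unique. Proof: `σ x - τ x ∈ P` for all `x`; put `x = τ⁻¹ • y`: `σ * τ⁻¹` is in the inertia group, so it is `1`. -/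
def UNF_stmt : Prop := ∀ (K L : Type) [Field K] [NumberField K] [Field L] [NumberField L] [Algebra K L] [IsGalois K L]
  (P : Ideal (𝓞 L)) (q : ℕ) (σ τ : Gal(L/K)), P.IsPrime → P ≠ ⊥ → ¬ P ∣ differentIdeal (𝓞 K) (𝓞 L) →
  IsFr σ P q → IsFr τ P q → σ = τ

/-- **LIF** (short-medium; from FRQ, GUP, UNF). Lifting of Frobenius elements. Proof: `Q` over `P` (GUP), `Q.under (𝓞 K) = P.under (𝓞 K)` (`Ideal.under_under`); FRQ: `s` with `IsFr s Q (nv K v)`; for `x : 𝓞 L` the difference `(s|_L) x - x ^ q` maps to an element of `Q`, so it is in `P`; UNF: `s|_L = g|_L`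
(`AlgEquiv.restrictNormalHom_apply`, `AlgEquiv.restrictNormal_commutes`). `P ≠ ⊥` as `v.asIdeal ≠ ⊥`. -/
def LIF_stmt : Prop := ∀ (K : Type) [Field K] [NumberField K] (L : IntermediateField K (AlgebraicClosure K))
  [FiniteDimensional K L] [NumberField L] [IsGalois K L] (g : GalK K) (P : Ideal (𝓞 L)) (v : Pl K), P.IsPrime →
  ¬ P ∣ differentIdeal (𝓞 K) (𝓞 L) → P.under (𝓞 K) = v.asIdeal →
  IsFr (AlgEquiv.restrictNormalHom L g) P (nv K v) → ∃ s ∈ frob K v, ∀ x ∈ L, s x = g x

/-- **INR** (medium; from STB, TRS, DIF, GUP). If the inertia groups over `v` act trivially on `L` then no prime of `L` over `v` divides the different. Proof: otherwise (DIF) `τ ≠ 1`, `τ x - x ∈ P` for all `x`; `g` a lift of `τ` (`AlgEquiv.restrictNormalHom_surjective`), `Q` over `P` (GUP). `Q' = {x | g • x ∈ Q}` (a comap, prime) lies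
over `{x | τ x ∈ P} = P`. TRS for `M = L`, `Ω = AlgebraicClosure K` (`IsGalois L Ω`): `h ∈ Gal(Ω/L)` with `x ∈ Q ↔ h x ∈ Q'`, so `σ₁ = g ∘ h` (`AlgEquiv.restrictScalars K h`) satisfies `x ∈ Q ↔ σ₁ x ∈ Q` and `σ₁|_L = τ`. It induces `φ` on `𝓞 Ω ⧸ Q` (`Ideal.quotientEquiv`), the identity on the image of `𝓞 L`
(`τ x - x ∈ P`). STB for `M = L`: `σ₂ ∈ Gal(Ω/L)` with the same `φ`. `σ₁ σ₂⁻¹ x - x ∈ Q` for all `x`: it is in `inert K v` and is `τ ≠ 1` on `L`, a contradiction. -/
def INR_stmt : Prop := ∀ (K : Type) [Field K] [NumberField K] (L : IntermediateField K (AlgebraicClosure K))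
  [FiniteDimensional K L] [NumberField L] [IsGalois K L] (v : Pl K), (∀ σ ∈ inert K v, ∀ x ∈ L, σ x = x) →
  ∀ P : Ideal (𝓞 L), P.IsPrime → P.under (𝓞 K) = v.asIdeal → ¬ P ∣ differentIdeal (𝓞 K) (𝓞 L)

/-! ## C. The discriminant -/

/-- **DST** (short-medium). The different is stable under the Galois group. Proof: `P' = σ • P` for some `σ` (`Algebra.IsInvariant.exists_smul_of_under_eq`, finite Galois), and `σ` maps the different to itself (it is defined by the trace form, `trace (σ x) = trace x`: `Algebra.trace_eq_of_algEquiv`; grep `differentIdeal` and `map`/`AlgEquiv` in Mathlib, e.g. `differentIdeal_map` type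
lemmas; `coeIdeal_differentIdeal`, `FractionalIdeal.mem_dual`, `Submodule.mem_traceDual`). -/
def DST_stmt : Prop := ∀ (K L : Type) [Field K] [NumberField K] [Field L] [NumberField L] [Algebra K L] [IsGalois K L]
  (P P' : Ideal (𝓞 L)) (k : ℕ), P.IsPrime → P'.IsPrime → P.under (𝓞 K) = P'.under (𝓞 K) →
  P ^ k ∣ differentIdeal (𝓞 K) (𝓞 L) → P' ^ k ∣ differentIdeal (𝓞 K) (𝓞 L)

/-- **DEX** (medium). If `(v 𝓞 L) ^ k` divides the different then `n = [L : K] ∈ v ^ k`. Proof: let `I = v ^ k`, a fractional ideal of `K`; for `y ∈ I⁻¹` (`y ∈ K`) and `z ∈ 𝓞 L` the trace of `y z` is in `𝓞 K`: `y 𝓞 L ⊆ (I 𝓞 L)⁻¹ ⊆ (different)⁻¹ = dual` (`coeIdeal_differentIdeal`, `FractionalIdeal.dual`, `Submodule.traceDual`). For `z = 1`: `n y ∈ 𝓞 K`. So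
`n I⁻¹ ⊆ 𝓞 K`, `n ∈ I`. (Elementary variant: for `y ∈ K` with `y a ∈ 𝓞 K` for all `a ∈ I`: for `d` in the different, `d ∈ I 𝓞 L`, so `y d ∈ 𝓞 L`; hence `y` is in the dual of the different.. = `(different)⁻¹`.) -/
def DEX_stmt : Prop := ∀ (K L : Type) [Field K] [NumberField K] [Field L] [NumberField L] [Algebra K L]
  (v : Pl K) (k : ℕ), (v.asIdeal.map (algebraMap (𝓞 K) (𝓞 L))) ^ k ∣ differentIdeal (𝓞 K) (𝓞 L) →
  ((Module.finrank K L : ℕ) : 𝓞 K) ∈ v.asIdeal ^ k

/-- **DMU** (medium; from DST, DEX). The exponents of the different. Proof: `v 𝓞 L = ∏ P' ^ e` over the primes `P'` over `v` (`Ideal.map_algebraMap_eq_finset_prod_pow`, all ramification indices are equal in a Galois extension: `Ideal.ramificationIdx_eq_of_isGalois` or `ramificationIdxIn`), `e ≥ 1`. Let `k = m / e`. By DST `P' ^ (e k)` divides the different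
for all `P'`, so (coprime) `(v 𝓞 L) ^ k` does; DEX: `n ∈ v ^ k`, so `2 ^ k ≤ (nv v) ^ k` divides `|N(n)| = n ^ [K:ℚ] ≤ B ^ B` and `k ≤ B ^ 2`. `m < e (k + 1) ≤ e (B ^ 2 + 1)`. -/
def DMU_stmt : Prop := ∀ (B : ℕ) (K L : Type) [Field K] [NumberField K] [Field L] [NumberField L] [Algebra K L] [IsGalois K L]
  (v : Pl K) (P : Ideal (𝓞 L)) (m : ℕ), Module.finrank ℚ L ≤ B → P.IsPrime → P.under (𝓞 K) = v.asIdeal →
  P ^ m ∣ differentIdeal (𝓞 K) (𝓞 L) → P ^ m ∣ (v.asIdeal.map (algebraMap (𝓞 K) (𝓞 L))) ^ (B ^ 2 + 1)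

/-- **DSR** (short-medium; from DMU). The discriminant bound. Proof: `|d_L| = N(different) |d_K| ^ [L:K]` (`NumberField.natAbs_discr_eq_absNorm_differentIdeal_mul_natAbs_discr_pow`), and the different divides `∏_(v ∈ R) (v 𝓞 L) ^ (B ^ 2 + 1)` (compare the exponents of all primes `P`: `Ideal` factorisation, `UniqueFactorizationMonoid` / `Associates.count` /
`Ideal.dvd..`: for `P ∤ different` nothing to show, otherwise `P` lies over some `v ∈ R`), whose norm is `∏ (nv v) ^ ([L:K] (B ^ 2 + 1))` (`Ideal.absNorm_algebraMap`). `c = B (B ^ 2 + 1)`. -/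
def DSR_stmt : Prop := ∀ B : ℕ, ∃ c : ℕ, ∀ (K L : Type) [Field K] [NumberField K] [Field L] [NumberField L] [Algebra K L]
  [IsGalois K L] (R : Finset (Pl K)), Module.finrank ℚ L ≤ B →
  (∀ P : Ideal (𝓞 L), P.IsPrime → P ∣ differentIdeal (𝓞 K) (𝓞 L) → ∃ v ∈ R, P.under (𝓞 K) = v.asIdeal) →
  (discr L).natAbs ≤ (discr K).natAbs ^ B * (∏ v ∈ R, nv K v) ^ c

/-! ## D. Density -/

/-- **DEN** (medium; from LIF, NBH). The Frobenius elements at the places of prime norm are dense. Proof: `g ∈ O`, `L` from NBH, `σ = AlgEquiv.restrictNormalHom L g`. CHEB for `K`, `L` and the finite set of the primes `p` which divide `nv K v` for some `v ∈ T`, or the norm of the different of `L / K` (it is not `0`: `differentIdeal_ne_bot`): `p`, `P` with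
`absNorm (P.under (𝓞 K)) = p`, `IsArithFrobAt (𝓞 K) σ P`, which unfolds to `IsFr σ P p` (`Nat.card (𝓞 K ⧸ P.under (𝓞 K)) = absNorm = p`). `v = P.under (𝓞 K) ≠ ⊥` (norm `p ≠ 0`), `v ∉ T`. `P` does not divide the different: otherwise its norm, a power of `p` (`P ∣ (p)`, `P ≠ ⊤`), divides the norm of the different. LIF: `s ∈ frob K v` agrees with `g` on `L`, so `s ∈ O`. -/
def DEN_stmt : Prop := ∀ (K : Type) [Field K] [NumberField K] (O : Set (GalK K)) (T : Set (Pl K)), IsOpen O → O.Nonempty →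
  T.Finite → ∃ v ∉ T, (nv K v).Prime ∧ ∃ s ∈ frob K v, s ∈ O

/-- **FRB** (short-medium; from DEN, FRQ, GUP). `IsFrob`. Proof: nonempty: GUP for `K`, FRQ. `dense`: DEN. `norm_ne_zero`: `Ideal.absNorm_eq_zero_iff`. `finite`: if `q ∣ nv K v`, `q` prime, then `q ∈ v.asIdeal` (`nv v` is a power of a prime `p ∈ v`; or `absNorm I ∈ I`, and it is a product of primes), and only finitely many `v` divide `(q)` (`Ideal.finite_factors` /
`HeightOneSpectrum` finiteness of the factors). -/
def FRB_stmt : Prop := ∀ (K : Type) [Field K] [NumberField K], Pool.Agent.UM.IsFrob (frob K) (nv K)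

/-- **UNR** (short-medium). Almost all primes are unramified in `E`. Proof: let `q ≥ 5` be a prime which does not divide `discr E`. The ideal `(q)` of `𝓞 E` is a product of different primes (`NumberField.not_dvd_discr_iff_forall_mem`, unramified: `ramificationIdx = 1`; i.e. `(q)` is radical / squarefree). If `x` and `x ^ 2 / q` are integral then `x ^ 2 ∈ (q)`, so `x ∈ (q)`. -/
def UNR_stmt : Prop := ∀ (E : Type) [Field E] [NumberField E], {q : ℕ | q.Prime ∧ ¬ Pool.Agent.RG.IsUnr E q}.Finite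

/-- **NNO** (short; from DEN). Proof: `O = U \ C` is open, and not empty because `μ U > 0` (`U` is open and contains `1`: `IsOpen.measure_pos`) and `μ C = 0`. DEN. -/
def NNO_stmt : Prop := ∀ (K : Type) [Field K] [NumberField K] [MeasurableSpace (GalK K)] [BorelSpace (GalK K)]
  (μ : MeasureTheory.Measure (GalK K)) [μ.IsHaarMeasure] (T : Set (Pl K)), T.Finite →
  Pool.Agent.RG.NonNeglOpen μ (frob K) {v | v ∉ T ∧ (nv K v).Prime}

/-- **GSW** (short; from NNO, UNR). The set of the places of prime norm outside a finite set is good in weight two. Proof: the set `{v | v ∉ T', (nv K v).Prime}`, `T'` = `T` and the `v` for which `nv K v` is one of the finitely many primes of UNR (finitely many `v` for each prime: FRB `finite`). `2 ≤ nv`. -/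
def GSW_stmt : Prop := ∀ (K E : Type) [Field K] [NumberField K] [Field E] [NumberField E] [MeasurableSpace (GalK K)]
  [BorelSpace (GalK K)] (μ : MeasureTheory.Measure (GalK K)) [μ.IsHaarMeasure] (r : ℕ) (n : Fin r → ℕ)
  (P : Fin r → Pl K → Polynomial E) (Q : Pl K → Polynomial E) (w : Fin r → ℕ) (T : Set (Pl K)), T.Finite →
  (∀ i, 2 ≤ n i → w i ≤ 1) → (∀ v ∉ T, Pool.Agent.RG.IsHecke (nv K v) 1 (Q v)) →
  (∀ v ∉ T, ∀ i, 2 ≤ n i → Pool.Agent.RG.IsWeil (nv K v) (w i) (P i v)) →
  ∃ O : Set (Pl K), Pool.Agent.RG.IsGoodSet μ (frob K) n P Q (nv K) 1 w O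

/-! ## E. The effective theorem -/

/-- **EFC** (medium; from DSR, FXU, INR, LIF). Effective Chebotarev for the absolute Galois group. Proof: `U` open, normal, `W ≤ U`, index `≤ B`; `L` from FXU, `[L : ℚ] ≤ h B`. For `v ∉ T`, `p₀ ∤ nv v` the elements of `inert K v` are in `W ≤ U`, so they fix `L`: INR. So (DSR) with `R = T ∪ {v | p₀ ∣ nv v}` (finite, `∏_(v ∣ p₀) nv v ≤ p₀ ^ h`: the product of these ideals divides
`(p₀)`, of norm `p₀ ^ [K:ℚ]`): `|d_L| ≤ |d_K| ^ (h B) (N p₀ ^ h) ^ c ≤ (N p₀ ^ h) ^ (h B + c)` (`|d_K| ∏_(v ∈ T) nv v ≤ N`, so both factors are `≤ N`). CHEBE for the degree bound `h B`, the number `N' = l N p₀ |d_L|` and the finite set of the primes which divide `l p₀ ∏_(v ∈ T) nv v · |d_L|` (its number is at most `N'`: a number `m ≥ 1` has at most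
`m` prime factors): `p ≤ C N' ^ A`, `P`, `IsFr σ P p`, `σ = g|_L`. `P` does not divide the different of `L / K` (otherwise `p` divides `|d_L| = N(different) |d_K| ^ [L:K]`, see DSR). LIF: `s ∈ frob K v`, `v = P.under (𝓞 K)`, `s = g` on `L`, so `s⁻¹ g ∈ U`. `nv v = p`, prime to `l` and to `p₀`, `v ∉ T` (`p ∤ nv v'` for `v' ∈ T`). Choose `a B`, `b B`. -/
def EFC_stmt : Prop := ∀ (h p₀ : ℕ) [Fact p₀.Prime], ∃ a b : ℕ → ℕ, ∀ (K : Type) [Field K] [NumberField K],
  Module.finrank ℚ K ≤ h → ∀ (T : Finset (Pl K)) (N : ℕ), (discr K).natAbs * ∏ v ∈ T, nv K v ≤ N →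
  ∀ W : Subgroup (GalK K), (∀ v ∉ T, ¬ p₀ ∣ nv K v → ∀ σ ∈ inert K v, σ ∈ W) →
    Pool.Agent.PU.EffectiveChebotarev' (frob K) (nv K) (T : Set (Pl K)) p₀ W a b N

end Pool.Agent.GK
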