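import Pool.Agent.helper16.GK.All0
import Pool.Agent.helper16.GK.RMain
import Pool.Agent.helper92.GK.FRB

/-!
# Project GK: assembly (everything from Chebotarev's theorem)
-/

set_option autoImplicit false

namespace Pool.Agent.GK

theorem FRB_all (hCHEB : Pool.Agent.CH.CHEB_stmt) : FRB_stmt := FRB (DEN_all hCHEB) FRQ_all GUP

theorem GSW_all (hCHEB : Pool.Agent.CH.CHEB_stmt) : GSW_stmt := GSW (NNO_all hCHEB) UNR (FRB_all hCHEB)

theorem RMAIN_all (hMAINP : Pool.Agent.PU.MAINP_stmt) (hCHEB : Pool.Agent.CH.CHEB_stmt)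
    (hCHEBE : Pool.Agent.CH.CHEBE_stmt) : RMAIN_stmt :=
  RMAIN hMAINP (FRB_all hCHEB) (EFC_all hCHEBE)

end Pool.Agent.GK
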