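import Mathlib
import Pool.Agent.helper16.GK.RMain

/-!
# Project GK (MP_2e0e07_nt): the polynomial adelic open image theorem, explicit form in weight two
-/

set_option autoImplicit false

namespace Pool.Agent.GK

open Matrix Polynomial Pool.Agent.GO Pool.Agent.AR Pool.Agent.RG Pool.Agent.HZ Pool.Agent.DS
  Pool.Agent.AX Pool.Agent.UM Pool.Agent.PU MeasureTheory NumberField IsDedekindDomain

/-- The form has weight two and `V` has weights at most one (apart from characters): outside of `T`,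
`Q v = X² - a_v X + ε_v q_v` with `a_v` integral and `ε_v` a root of unity, and the `P i v` with `n i ≥ 2` have
integral coefficients and roots of absolute value `q_v ^ (u i / 2)` with `u i ≤ 1`. -/
def WeightTwo (K : Type) [Field K] [NumberField K] {E : Type} [Field E] {r : ℕ} (n : Fin r → ℕ)
    (P : Fin r → Pl K → E[X]) (Q : Pl K → E[X]) (T : Finset (Pl K)) : Prop :=
  ∃ u : Fin r → ℕ, (∀ i, 2 ≤ n i → u i ≤ 1) ∧ (∀ v ∉ T, IsHecke (nv K v) 1 (Q v)) ∧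
    ∀ v ∉ T, ∀ i, 2 ≤ n i → IsWeil (nv K v) (u i) (P i v)

/-- For every realisation `(V, ρ)` of `(P, Q)` on an open subgroup `ad⁰ ρ` is a subquotient of a
tensor construction of `V`, and in weight two `ρ` is a subquotient of some `V i ⊗ F[Fin N]`. -/
def AllAriseK (K : Type) [Field K] [NumberField K] {E : Type} [Field E] {r : ℕ} (n : Fin r → ℕ)
    (P : Fin r → Pl K → E[X]) (Q : Pl K → E[X]) (T : Finset (Pl K)) : Prop :=
  ∀ (F : Type) [Field F] [IsAlgClosed F] [CharZero F] [TopologicalSpace F]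
    [IsTopologicalRing F] [T2Space F] (ι : E →+* F)
    (V : (i : Fin r) → GalK K →* Matrix (Fin (n i)) (Fin (n i)) F)
    (ρ : GalK K →* Matrix (Fin 2) (Fin 2) F), IsRealisation (frob K) P Q ι V ρ →
    AdArises V ρ ∧ (WeightTwo K n P Q T → Arises V ρ)

/-- For no realisation `(V, ρ)` of `(P, Q)` is `ad⁰ ρ` on an open subgroup a subquotient of a tensor
construction of `V`, and in weight two `ρ` is not a subquotient of any `V i ⊗ F[Fin N]`. -/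
def NoneArisesK (K : Type) [Field K] [NumberField K] {E : Type} [Field E] {r : ℕ} (n : Fin r → ℕ)
    (P : Fin r → Pl K → E[X]) (Q : Pl K → E[X]) (T : Finset (Pl K)) : Prop :=
  ∀ (F : Type) [Field F] [IsAlgClosed F] [CharZero F] [TopologicalSpace F]
    [IsTopologicalRing F] [T2Space F] (ι : E →+* F)
    (V : (i : Fin r) → GalK K →* Matrix (Fin (n i)) (Fin (n i)) F)
    (ρ : GalK K →* Matrix (Fin 2) (Fin 2) F), IsRealisation (frob K) P Q ι V ρ →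
    ¬ AdArises V ρ ∧ (WeightTwo K n P Q T → ¬ Arises V ρ)

/-- The final statement. -/
def RMAIN2_stmt : Prop := ∀ (r : ℕ) (n : Fin r → ℕ) (i₀ : Fin r) (h d w p₀ : ℕ) [Fact p₀.Prime],
    ∃ c₁ c₂ : ℕ, ∀ {K E J : Type} [Field K] [NumberField K] (_ : Module.finrank ℚ K ≤ h)
    [Field E] [NumberField E] (_ : Module.finrank ℚ E ≤ d) (Q : Pl K → (𝓞 E)[X])
    (p : J → ℕ) [∀ j, Fact (p j).Prime] (_ : Function.Injective p)
    (F κ : J → Type) [∀ j, NormedField (F j)] [∀ j, NormedAlgebra ℚ_[p j] (F j)]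
    [∀ j, FiniteDimensional ℚ_[p j] (F j)] (_ : ∀ j, Module.finrank ℚ_[p j] (F j) ≤ d)
    [∀ j, Field (κ j)] [∀ j, IsAlgClosed (κ j)] [∀ j, CharP (κ j) (p j)]
    (ι : ∀ j, E →+* F j) (red : ∀ j, F j → κ j)
    (ρ : ∀ j, GalK K →* Matrix (Fin 2) (Fin 2) (F j))
    (S : ∀ j, GalK K →* Matrix (Fin 2) (Fin 2) (κ j))
    (_ : {j | Big (p j) (S j)}.Infinite),
    ∃ c : J → ℕ, (∀ j, Big (p j) (S j) → 2 * d + 1 < p j → c j = 1) ∧
    ∀ (P : Fin r → Pl K → ℤ[X]) (T : Finset (Pl K)) (N : ℕ)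
    (_ : N = (discr K).natAbs * ∏ v ∈ T, nv K v)
    (_ : IsPolys n i₀ w (nv K) T P Q)
    (V : (q : ℕ) → [Fact q.Prime] → (i : Fin r) → GalK K →* Matrix (Fin (n i)) (Fin (n i)) ℤ_[q])
    (_ : IsSystem (frob K) (nv K) T P V)
    (F₀ : Type) [NormedField F₀] [NormedAlgebra ℚ_[p₀] F₀] [FiniteDimensional ℚ_[p₀] F₀]
    (_ : Module.finrank ℚ_[p₀] F₀ ≤ d) (ι₀ : E →+* F₀) (ρ₀ : GalK K →* Matrix (Fin 2) (Fin 2) F₀)
    (_ : HasPolys (frob K) (nv K) T p₀ Q ι₀ ρ₀)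
    (_ : ∀ v ∉ T, ¬ p₀ ∣ nv K v → ∀ σ ∈ inert K v, (∀ i, V p₀ i σ = 1) ∧ ρ₀ σ = 1)
    (Ω : J → Type) [∀ j, Field (Ω j)] [∀ j, IsAlgClosed (Ω j)]
    [∀ j, CharZero (Ω j)] [∀ j, Algebra (F j) (Ω j)] [∀ j, TopologicalSpace (Ω j)]
    [∀ j, IsTopologicalRing (Ω j)] [∀ j, T2Space (Ω j)]
    (_ : ∀ j, IsMember (frob K) (nv K) T P Q (p j) (V (p j)) (Ω j) (ι j) (red j) (ρ j) (S j)),
      (AllAriseK K n (PE E P) (QE Q) T ∧
        (∀ v ∉ T, ∀ φ : E →+* ℂ, RatioAt (fun i => P i v) (Q v) φ) ∧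
        ∀ j, (kerV (V (p j)) ⊔ adKer (ρ j)).index = 0 ∧
          (Big (p j) (S j) → p j ≠ 2 → kerV (Wm (p j) V) ≤ adKer (S j))) ∨
      (NoneArisesK K n (PE E P) (QE Q) T ∧
        (∃ v ∉ T, nv K v ≤ c₁ * N ^ c₂ ∧ ∀ φ : E →+* ℂ, ¬ RatioAt (fun i => P i v) (Q v) φ) ∧
        (∀ j, (cross V ρ j).index ≠ 0 ∧ (Big (p j) (S j) → c₁ * N ^ c₂ < p j →
          (cross V ρ j).index ≤ 2 ∧ ¬ kerV (Wm (p j) V) ≤ adKer (S j))) ∧
        (∀ s : Finset J, (∀ j ∈ s, Big (p j) (S j) ∧ 2 * d + 1 < p j ∧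
          2 < (cross V ρ j).index) → ∏ j ∈ s, (cross V ρ j).index ≤ c₁ * N ^ c₂) ∧
        (∀ (s : Finset J) (k : J → ℕ), (∀ j ∈ s, ∀ g ∈ kerAll V,
          nu (ρ j g) ≤ ((p j : ℝ) ^ k j)⁻¹) →
          ∏ j ∈ s, p j ^ k j ≤ (∏ j ∈ s, c j) * (c₁ * N ^ c₂)) ∧
        ∀ g : J → GalK K, (∀ j, g j ∈ cross V ρ j) →
          ∃ z ∈ kerAll V, ∀ j, z⁻¹ * g j ∈ adKer (ρ j))

theorem RMAIN2 (hRMAIN : RMAIN_stmt) (hGSW : GSW_stmt) : RMAIN2_stmt := by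
  intro r n i₀ h d w p₀ _
  obtain ⟨c₁, c₂, H⟩ := hRMAIN r n i₀ h d w p₀
  refine ⟨c₁, c₂, ?_⟩
  intro K E J _ _ hK _ _ hE Q p _ hp F κ _ _ _ hF _ _ _ ι red ρ S hinf
  letI : MeasurableSpace (GalK K) := borel (GalK K)
  haveI : BorelSpace (GalK K) := ⟨rfl⟩
  obtain ⟨c, hc, H'⟩ := H hK (Measure.haar : Measure (GalK K)) hE Q p hp F κ hF ι red ρ S hinf
  refine ⟨c, hc, ?_⟩
  intro P T N hN hpol V hV F₀ _ _ _ hF₀ ι₀ ρ₀ hρ₀ hunr Ω _ _ _ _ _ _ _ hmem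
  have hgood : WeightTwo K n (PE E P) (QE Q) T → ∃ (u : Fin r → ℕ) (O : Set (Pl K)),
      IsGoodSet (Measure.haar : Measure (GalK K)) (frob K) n (PE E P) (QE Q) (nv K) 1 u O := by
    rintro ⟨u, hu, h1, h2⟩
    obtain ⟨O, hO⟩ := hGSW K E (Measure.haar : Measure (GalK K)) r n (PE E P) (QE Q) u (T : Set (Pl K))
      T.finite_toSet hu (fun v hv => h1 v (by simpa using hv)) (fun v hv => h2 v (by simpa using hv))
    exact ⟨u, O, hO⟩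
  rcases H' P T N hN hpol V hV F₀ hF₀ ι₀ ρ₀ hρ₀ hunr Ω hmem with ⟨h1, h2⟩ | ⟨h1, h2⟩
  · refine Or.inl ⟨?_, h2⟩
    intro F' _ _ _ _ _ _ ι' V' ρ' hR
    obtain ⟨h3, h4⟩ := h1 F' ι' V' ρ' hR
    refine ⟨h3, fun hw => ?_⟩
    obtain ⟨u, O, hO⟩ := hgood hw
    exact h4 (nv K) 1 u O hO
  · refine Or.inr ⟨?_, h2⟩
    intro F' _ _ _ _ _ _ ι' V' ρ' hR
    obtain ⟨h3, h4⟩ := h1 F' ι' V' ρ' hR
    refine ⟨h3, fun hw => ?_⟩
    obtain ⟨u, O, hO⟩ := hgood hw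
    exact h4 (nv K) 1 u O hO

end Pool.Agent.GK
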