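import Mathlib
import Pool.Agent.helper16.GK.RMain2

/-!
# Project GK (MP_2e0e07_nt): names for the parts of the final statement
-/

set_option autoImplicit false

namespace Pool.Agent.GK

open Matrix Polynomial Pool.Agent.GO Pool.Agent.AR Pool.Agent.RG Pool.Agent.HZ Pool.Agent.DS
  Pool.Agent.AX Pool.Agent.UM Pool.Agent.PU NumberField

/-- Representations of dimension two of the absolute Galois group of `K` over `F`. -/
abbrev Rep2 (K F : Type) [Field K] [Field F] : Type := GalK K →* Matrix (Fin 2) (Fin 2) F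

/-- Representations `V q i` of the absolute Galois group of `K` of dimension `n i` over `ℤ_[q]`, for all
primes `q`. -/
abbrev ZSys (K : Type) [Field K] {r : ℕ} (n : Fin r → ℕ) : Type :=
  (q : ℕ) → [Fact q.Prime] → (i : Fin r) → GalK K →* Matrix (Fin (n i)) (Fin (n i)) ℤ_[q]

/-- The first alternative, `f` comes from `X`. All realisations of `(P, Q)` arise from `P`; at every place
`v ∉ T` the quotient of the roots of `Q v` is a quotient of two roots of the product of the `P i v`;
`K(ad (ρ j))` and `K(V (p j))` have an intersection of infinite degree for all `j`; and for every big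
`j` with `p j ≠ 2` the field `K(ad (S j))` is contained in the field cut out by `V (p j)` modulo `p j`. -/
def ComesFrom {K E J : Type} [Field K] [NumberField K] [Field E] {r : ℕ} {n : Fin r → ℕ}
    (P : Fin r → Pl K → ℤ[X]) (Q : Pl K → (𝓞 E)[X]) (T : Finset (Pl K)) (V : ZSys K n)
    (p : J → ℕ) [∀ j, Fact (p j).Prime] {F κ : J → Type} [∀ j, Field (F j)] [∀ j, Field (κ j)]
    (ρ : ∀ j, Rep2 K (F j)) (S : ∀ j, Rep2 K (κ j)) : Prop :=
  AllAriseK K n (PE E P) (QE Q) T ∧
    (∀ v ∉ T, ∀ φ : E →+* ℂ, RatioAt (fun i => P i v) (Q v) φ) ∧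
    ∀ j, (kerV (V (p j)) ⊔ adKer (ρ j)).index = 0 ∧
      (Big (p j) (S j) → p j ≠ 2 → kerV (Wm (p j) V) ≤ adKer (S j))

/-- The adelic part of the second alternative, with the bound `M`. The index of `cross V ρ j` is finite
for every `j`, and for every big `j` with `p j > M` it is at most two and `K(ad (S j))` is not contained
in the field cut out by `V (p j)` modulo `p j`. The product of the indices of `cross V ρ j` over all big
`j` with `p j > 2 d + 1` for which the index is greater than two is at most `M`. If the common kernel of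
the `V q i` is contained for every `j ∈ s` in the set of the `g` for which `ρ j g` is scalar modulo
`(p j) ^ (k j)`, then the product of the `(p j) ^ (k j)` is at most `M` times the product of the `c j`. For
any `g j ∈ cross V ρ j` there is one `z` in the common kernel with `ad (ρ j) (z) = ad (ρ j) (g j)` for all
`j`. -/
def OpenImage {K J : Type} [Field K] {r : ℕ} {n : Fin r → ℕ} (V : ZSys K n) (p : J → ℕ)
    [∀ j, Fact (p j).Prime] {F κ : J → Type} [∀ j, NormedField (F j)] [∀ j, Field (κ j)]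
    (ρ : ∀ j, Rep2 K (F j)) (S : ∀ j, Rep2 K (κ j)) (d : ℕ) (c : J → ℕ) (M : ℕ) : Prop :=
  (∀ j, (cross V ρ j).index ≠ 0 ∧ (Big (p j) (S j) → M < p j →
    (cross V ρ j).index ≤ 2 ∧ ¬ kerV (Wm (p j) V) ≤ adKer (S j))) ∧
  (∀ s : Finset J, (∀ j ∈ s, Big (p j) (S j) ∧ 2 * d + 1 < p j ∧ 2 < (cross V ρ j).index) →
    ∏ j ∈ s, (cross V ρ j).index ≤ M) ∧
  (∀ (s : Finset J) (k : J → ℕ), (∀ j ∈ s, ∀ g ∈ kerAll V, nu (ρ j g) ≤ ((p j : ℝ) ^ k j)⁻¹) →
    ∏ j ∈ s, p j ^ k j ≤ (∏ j ∈ s, c j) * M) ∧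
  ∀ g : J → GalK K, (∀ j, g j ∈ cross V ρ j) → ∃ z ∈ kerAll V, ∀ j, z⁻¹ * g j ∈ adKer (ρ j)

/-- The second alternative, `f` and `X` are independent, with the bound `M`. No realisation of `(P, Q)`
arises from `P`; the relation between the roots fails at a place `v ∉ T` of norm at most `M`, for all
embeddings of `E`; and `OpenImage`. -/
def Independent {K E J : Type} [Field K] [NumberField K] [Field E] {r : ℕ} {n : Fin r → ℕ}
    (P : Fin r → Pl K → ℤ[X]) (Q : Pl K → (𝓞 E)[X]) (T : Finset (Pl K)) (V : ZSys K n)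
    (p : J → ℕ) [∀ j, Fact (p j).Prime] {F κ : J → Type} [∀ j, NormedField (F j)]
    [∀ j, Field (κ j)] (ρ : ∀ j, Rep2 K (F j)) (S : ∀ j, Rep2 K (κ j)) (d : ℕ) (c : J → ℕ)
    (M : ℕ) : Prop :=
  NoneArisesK K n (PE E P) (QE Q) T ∧
    (∃ v ∉ T, nv K v ≤ M ∧ ∀ φ : E →+* ℂ, ¬ RatioAt (fun i => P i v) (Q v) φ) ∧
    OpenImage V p ρ S d c M

/-- `V p₀ i`, `i < r`, and `ρ₀` are unramified at all places `v ∉ T` which do not lie over `p₀`. -/
def Unramified {K : Type} [Field K] [NumberField K] {r : ℕ} {n : Fin r → ℕ} (T : Finset (Pl K))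
    (V : ZSys K n) (p₀ : ℕ) [Fact p₀.Prime] {F₀ : Type} [Field F₀] (ρ₀ : Rep2 K F₀) : Prop :=
  ∀ v ∉ T, ¬ p₀ ∣ nv K v → ∀ σ ∈ inert K v, (∀ i, V p₀ i σ = 1) ∧ ρ₀ σ = 1

end Pool.Agent.GK
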