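import Pool.Agent.helper16.GK.All1
import Pool.Agent.helper16.GK.RMain2
import Pool.Agent.helper16.PU.All

/-!
# Projects PU and GK: everything from Chebotarev's theorem
-/

set_option autoImplicit false

namespace Pool.Agent.GK

theorem RMAIN2_all (hCHEB : Pool.Agent.CH.CHEB_stmt) (hCHEBE : Pool.Agent.CH.CHEBE_stmt) : RMAIN2_stmt :=
  RMAIN2 (RMAIN_all Pool.Agent.PU.MAINP_all hCHEB hCHEBE) (GSW_all hCHEB)

end Pool.Agent.GK
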