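import Mathlib
import Pool.Agent.helper16.GK.All2

/-!
# MP_2e0e07_nt: polynomial adelic open image for the pair (f, X), over the absolute Galois group

No hypothesis is made on the Galois group: `K` is a number field, `GalK K = Gal(AlgebraicClosure K/K)`
its absolute Galois group with the Krull topology, `Pl K` the set of its finite places, `nv K v` the
norm of `v`, `frob K v` the set of the arithmetic Frobenius elements at all prime ideals over `v` of
the ring of all algebraic integers, `inert K v` the union of the inertia groups at these ideals. The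
theorem of Chebotarev, also with an effective bound (polynomial in the discriminant), is proved in
Lean in the files which are imported here.

The form: `E` is a number field of degree at most `d`, `Q v = X² - a_v X + d_v` a polynomial over the
integers of `E` (the Hecke polynomials of a Bianchi newform `f` without CM, `d_v ∈ ℤ`). `J` is a set of
indices, `p j` different primes, `F j` an extension of `ℚ_[p j]` of degree at most `d`,
`ρ j : GalK K → GL₂` continuous with integral entries over `F j` and with characteristic polynomials
`Q v`, and `S j` is its reduction over an algebraically closed field `κ j` of characteristic `p j`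
(`IsMember`; in particular `ρ j` is irreducible on all open subgroups). The index `j` is `Big` if
`S j` is irreducible and `p j` divides the order of its image; infinitely many `j` are big (for the
question by a theorem of Larsen), in fact for a newform without CM all but finitely many.

The variety: `P i v`, `i < r`, are polynomials over `ℤ` of degree `n i`, one of them `X - d_v` (the
Frobenius polynomials of the duals of the `H^i(X)` and of `det ρ`), and, for EVERY prime `q`, `V q i`
is a continuous representation over `ℤ_[q]` with characteristic polynomials `P i v` (`IsSystem`).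

The conductor: `T` is a finite set of places, outside of which all this holds, all conjugates of the
roots of the `P i v` and of `Q v` have absolute value at most `(nv K v) ^ w` (`IsPolys`), and, for one
fixed prime `p₀`, the representations `V p₀ i` and a `p₀`-adic representation `ρ₀` with the
characteristic polynomials `Q v`, over an extension of `ℚ_[p₀]` of degree at most `d`, are unramified
at `v` if `p₀` does not divide `nv K v`. `N` is the product of the absolute value of the discriminant
of `K` and of the norms of the places in `T`: the product of `|D_K|` and of the norms of the bad places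
of `f` and `X`, a divisor of the conductor.

Theorem. There are numbers `c₁`, `c₂`, which depend only on the dimensions `n i`, on `w`, `p₀` and on
the bounds `h`, `d` of the degrees of `K` and `E`, but NOT on `K`, NOT on `f` and NOT on `X`, and for
every `f` there are numbers `c j`, equal to `1` for all big `j` with `p j > 2 d + 1`, such that for all
`X` one of the following holds:
* all realisations of `(P, Q)` arise from `P` (`ad⁰ ρ` is on an open subgroup a subquotient of a tensor
  construction of `V = ⊕ V i`, and `ρ` itself is a subquotient of some `V i ⊗ F[Fin N]` if `f` has weight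
  two and the weights of the `V i` of dimension at least two are at most one); at EVERY place `v ∉ T`
  the quotient of the roots of `Q v` is a quotient of two roots of the product of the `P i v`;
  `K(ad (ρ j))` and `K(V (p j))` have an intersection of infinite degree for all `j`; and for EVERY big
  `j` with `p j ≠ 2` the field `K(ad (S j))` is contained in the field cut out by `V (p j)` modulo `p j`;
* no realisation of `(P, Q)` arises; the relation between the roots fails at a place `v ∉ T` with
  `nv K v ≤ c₁ * N ^ c₂`, for all embeddings of `E`; the index of `cross V ρ j` is finite for every `j`,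
  and for every big `j` with `p j > c₁ * N ^ c₂` it is at most two and `K(ad (S j))` is not contained
  in the field cut out by `V (p j)` modulo `p j`;
  THE PRODUCT of the indices of `cross V ρ j` over all big `j` with `p j > 2 d + 1` for which the index
  is greater than two is at most `c₁ * N ^ c₂`;
  and if `M = ∏ (p j) ^ (k j)` is such that the common kernel `kerAll V` of the `V q i`, for all primes
  `q`, is contained for every `j` in the set of the `g` for which `ρ j g` is scalar modulo
  `(p j) ^ (k j)`, i.e. if `K(ad ρ mod M)` is contained in the field of all torsion points of the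
  cohomology of `X`, then `M ≤ (∏ c j) * c₁ * N ^ c₂`;
  and for any `g j ∈ cross V ρ j` there is one `z ∈ kerAll V` with `ad (ρ j) (z) = ad (ρ j) (g j)` for
  all `j`.

Here `cross V ρ j` is the subgroup generated by `adKer (ρ j)` and by the elements of the common kernel
`kerAll V` of the `V q i`, for ALL primes `q`, which are in `adKer (ρ k)` for all `k ≠ j`: the group of
the intersection of the field `K(ad (ρ j))` with the compositum of all the fields cut out by `X` (at all
primes) and by the other `ad (ρ k)`.

So: either `f` comes from `X` or the image of Galois on `f` and `X` together is open in the product of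
the images, with an index which is (apart from quadratic intersections) bounded by a POLYNOMIAL in the
conductor. In particular (vertical criterion, one prime `p`, `X` moves): `f` comes from geometry if and
only if for one prime `p` (any) there are a number `n`, infinitely many `m` and varieties `X_m` with
Betti numbers at most `n` and conductor at most `p ^ (δ m)` such that `K(ad ρ_{f,p} mod p ^ m)` is
contained in the field of the cohomology of `X_m` (`δ` depends on `n` and `d`); and similarly for any
sequence of moduli `M`, with conductors at most `M ^ δ`.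
-/

namespace Pool.Agent.GK.Draft

open Matrix Polynomial Pool.Agent.GO Pool.Agent.AR Pool.Agent.RG Pool.Agent.HZ Pool.Agent.DS
  Pool.Agent.AX Pool.Agent.UM Pool.Agent.PU Pool.Agent.GK NumberField

theorem result
    -- the numbers on which the constants depend
    (hCHEB : Pool.Agent.CH.CHEB_stmt) (hCHEBE : Pool.Agent.CH.CHEBE_stmt)
    (r : ℕ) (n : Fin r → ℕ) (i₀ : Fin r) (h d w p₀ : ℕ) [Fact p₀.Prime] :
    ∃ c₁ c₂ : ℕ,
    -- the field and the form: the polynomials `Q v`, the `ρ j` and their reductions
    ∀ {K E J : Type} [Field K] [NumberField K] (_ : Module.finrank ℚ K ≤ h)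
    [Field E] [NumberField E] (_ : Module.finrank ℚ E ≤ d) (Q : Pl K → (𝓞 E)[X])
    (p : J → ℕ) [∀ j, Fact (p j).Prime] (_ : Function.Injective p)
    (F κ : J → Type) [∀ j, NormedField (F j)] [∀ j, NormedAlgebra ℚ_[p j] (F j)]
    [∀ j, FiniteDimensional ℚ_[p j] (F j)] (_ : ∀ j, Module.finrank ℚ_[p j] (F j) ≤ d)
    [∀ j, Field (κ j)] [∀ j, IsAlgClosed (κ j)] [∀ j, CharP (κ j) (p j)]
    (ι : ∀ j, E →+* F j) (red : ∀ j, F j → κ j)
    (ρ : ∀ j, GalK K →* Matrix (Fin 2) (Fin 2) (F j))
    (S : ∀ j, GalK K →* Matrix (Fin 2) (Fin 2) (κ j))
    (_ : {j | Big (p j) (S j)}.Infinite),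
    ∃ c : J → ℕ, (∀ j, Big (p j) (S j) → 2 * d + 1 < p j → c j = 1) ∧
    -- the variety: the polynomials `P i v`, the bad places, the conductor
    ∀ (P : Fin r → Pl K → ℤ[X]) (T : Finset (Pl K)) (N : ℕ)
    (_ : N = (discr K).natAbs * ∏ v ∈ T, nv K v)
    (_ : IsPolys n i₀ w (nv K) T P Q)
    -- the representations `V q i`, for all primes `q`
    (V : (q : ℕ) → [Fact q.Prime] → (i : Fin r) → GalK K →* Matrix (Fin (n i)) (Fin (n i)) ℤ_[q])
    (_ : IsSystem (frob K) (nv K) T P V)
    -- the `p₀`-adic representation `ρ₀`, and the ramification
    (F₀ : Type) [NormedField F₀] [NormedAlgebra ℚ_[p₀] F₀] [FiniteDimensional ℚ_[p₀] F₀]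
    (_ : Module.finrank ℚ_[p₀] F₀ ≤ d) (ι₀ : E →+* F₀) (ρ₀ : GalK K →* Matrix (Fin 2) (Fin 2) F₀)
    (_ : HasPolys (frob K) (nv K) T p₀ Q ι₀ ρ₀)
    (_ : ∀ v ∉ T, ¬ p₀ ∣ nv K v → ∀ σ ∈ inert K v, (∀ i, V p₀ i σ = 1) ∧ ρ₀ σ = 1)
    -- the `ρ j` belong to the form
    (Ω : J → Type) [∀ j, Field (Ω j)] [∀ j, IsAlgClosed (Ω j)]
    [∀ j, CharZero (Ω j)] [∀ j, Algebra (F j) (Ω j)] [∀ j, TopologicalSpace (Ω j)]
    [∀ j, IsTopologicalRing (Ω j)] [∀ j, T2Space (Ω j)]
    (_ : ∀ j, IsMember (frob K) (nv K) T P Q (p j) (V (p j)) (Ω j) (ι j) (red j) (ρ j) (S j)),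
      (AllAriseK K n (PE E P) (QE Q) T ∧
        (∀ v ∉ T, ∀ φ : E →+* ℂ, RatioAt (fun i => P i v) (Q v) φ) ∧
        ∀ j, (kerV (V (p j)) ⊔ adKer (ρ j)).index = 0 ∧
          (Big (p j) (S j) → p j ≠ 2 → kerV (Wm (p j) V) ≤ adKer (S j))) ∨
      (NoneArisesK K n (PE E P) (QE Q) T ∧
        (∃ v ∉ T, nv K v ≤ c₁ * N ^ c₂ ∧ ∀ φ : E →+* ℂ, ¬ RatioAt (fun i => P i v) (Q v) φ) ∧
        (∀ j, (cross V ρ j).index ≠ 0 ∧ (Big (p j) (S j) → c₁ * N ^ c₂ < p j →
          (cross V ρ j).index ≤ 2 ∧ ¬ kerV (Wm (p j) V) ≤ adKer (S j))) ∧
        (∀ s : Finset J, (∀ j ∈ s, Big (p j) (S j) ∧ 2 * d + 1 < p j ∧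
          2 < (cross V ρ j).index) → ∏ j ∈ s, (cross V ρ j).index ≤ c₁ * N ^ c₂) ∧
        (∀ (s : Finset J) (k : J → ℕ), (∀ j ∈ s, ∀ g ∈ kerAll V,
          nu (ρ j g) ≤ ((p j : ℝ) ^ k j)⁻¹) →
          ∏ j ∈ s, p j ^ k j ≤ (∏ j ∈ s, c j) * (c₁ * N ^ c₂)) ∧
        ∀ g : J → GalK K, (∀ j, g j ∈ cross V ρ j) →
          ∃ z ∈ kerAll V, ∀ j, z⁻¹ * g j ∈ adKer (ρ j)) :=
  RMAIN2_all hCHEB hCHEBE r n i₀ h d w p₀

end Pool.Agent.GK.Draft
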